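import Pool.Agent.helper65.GF.SpecG

set_option autoImplicit false

namespace Pool.Agent.GD

open Finset Metric Filter Topology

/-- `∑_l w_l x_l T^{x_l}_m = -(m+1) u_{m+1}`. -/
theorem YUB_key (N : ℕ) (w : Fin N → ℝ) (x : Fin N → ℂ) (m : ℕ) :
    ∑ l, (w l : ℂ) * (x l * gy (ex (-1) (mom w x)) (x l) m) =
      -((m : ℂ) + 1) * ex (-1) (mom w x) (m + 1) := by
  have h := (ex_rec (-1) (mom w x)).2 (m + 1)
  have h2 : ∑ l, (w l : ℂ) * (x l * gy (ex (-1) (mom w x)) (x l) m) =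
      ∑ q ∈ range (m + 1), mom w x (m + 1 - q) * ex (-1) (mom w x) q := by
    unfold gy
    simp only [Finset.mul_sum]
    rw [Finset.sum_comm]
    refine Finset.sum_congr rfl fun q hq => ?_
    have hq' := mem_range.1 hq
    rw [mom, Finset.sum_mul]
    refine Finset.sum_congr rfl fun l _ => ?_
    rw [show m + 1 - q = (m - q) + 1 by omega, pow_succ]
    ring
  rw [h2]
  push_cast at h
  linear_combination h

/-- The step: `S_{m+1} = S_m - (2m+1) |u_{m+1}|²`. -/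
theorem YUB_step (N : ℕ) (w : Fin N → ℝ) (x : Fin N → ℂ) (m : ℕ) (hat : Atomic N w x) :
    ∑ l, w l * ‖gy (ex (-1) (mom w x)) (x l) (m + 1)‖ ^ 2 =
      ∑ l, w l * ‖gy (ex (-1) (mom w x)) (x l) m‖ ^ 2 -
        (2 * (m : ℝ) + 1) * ‖ex (-1) (mom w x) (m + 1)‖ ^ 2 := by
  obtain ⟨hw0, hw1, hx⟩ := hat
  have key := YUB_key N w x m
  set u : ℕ → ℂ := ex (-1) (mom w x) with hu
  have h1 : ∀ l, w l * ‖gy u (x l) (m + 1)‖ ^ 2 = w l * ‖gy u (x l) m‖ ^ 2 + w l * ‖u (m + 1)‖ ^ 2 +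
      2 * ((w l : ℂ) * (x l * gy u (x l) m) * (starRingEnd ℂ) (u (m + 1))).re := by
    intro l
    have e1 : ‖gy u (x l) (m + 1)‖ ^ 2 = ‖gy u (x l) m‖ ^ 2 + ‖u (m + 1)‖ ^ 2 +
        2 * ((x l * gy u (x l) m) * (starRingEnd ℂ) (u (m + 1))).re := by
      rw [gy_succ, add_comm (u (m + 1)), Complex.sq_norm, Complex.normSq_add, ← Complex.sq_norm,
        ← Complex.sq_norm, norm_mul, hx l, one_mul]
    have e2 : ((w l : ℂ) * (x l * gy u (x l) m) * (starRingEnd ℂ) (u (m + 1))).re =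
        w l * ((x l * gy u (x l) m) * (starRingEnd ℂ) (u (m + 1))).re := by
      rw [mul_assoc, Complex.re_ofReal_mul]
    rw [e1, e2]
    ring
  rw [Finset.sum_congr rfl (fun l _ => h1 l), Finset.sum_add_distrib, Finset.sum_add_distrib,
    ← Finset.sum_mul, hw1, one_mul, ← Finset.mul_sum, ← Complex.re_sum, ← Finset.sum_mul, key]
  have h2 : (-((m : ℂ) + 1) * u (m + 1) * (starRingEnd ℂ) (u (m + 1))).re =
      -((m : ℝ) + 1) * ‖u (m + 1)‖ ^ 2 := by
    rw [mul_assoc, Complex.mul_conj, Complex.sq_norm]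
    have : (-((m : ℂ) + 1) * ((Complex.normSq (u (m + 1)) : ℝ) : ℂ)) =
        ((-((m : ℝ) + 1) * Complex.normSq (u (m + 1)) : ℝ) : ℂ) := by
      push_cast
      ring
    rw [this, Complex.ofReal_re]
  rw [h2]
  ring

theorem YUB : YUB_stmt := by
  intro N w x m hat hm
  have h0 : ∑ l, w l * ‖gy (ex (-1) (mom w x)) (x l) 0‖ ^ 2 = 1 := by
    have : ∀ l, w l * ‖gy (ex (-1) (mom w x)) (x l) 0‖ ^ 2 = w l := by
      intro l
      rw [gy_zero, (ex_rec (-1) (mom w x)).1, norm_one, one_pow, mul_one]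
    rw [Finset.sum_congr rfl (fun l _ => this l)]
    exact hat.2.1
  have hu1 : ‖ex (-1) (mom w x) 1‖ = ‖mom w x 1‖ := by
    have h := (ex_rec (-1) (mom w x)).2 1
    rw [Finset.sum_range_one, (ex_rec (-1) (mom w x)).1, mul_one] at h
    have h2 : ex (-1) (mom w x) 1 = - mom w x 1 := by
      have : (1 - 0 : ℕ) = 1 := rfl
      rw [this] at h
      push_cast at h
      linear_combination h
    rw [h2, norm_neg]
  induction m with
  | zero => omega
  | succ n ih =>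
    rw [YUB_step N w x n hat]
    rcases Nat.eq_zero_or_pos n with h | h
    · subst h
      rw [h0, zero_add, hu1]
      simp
    · have h3 := ih h
      have h4 : 0 ≤ (2 * (n : ℝ) + 1) * ‖ex (-1) (mom w x) (n + 1)‖ ^ 2 := by positivity
      linarith

end Pool.Agent.GD
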